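import Mathlib
import Pool.Agent.H12.Stair

namespace Pool.Agent.Results.MP_1da119_pr.Diverge

open MeasureTheory Filter

/-- the unnormalised weight `π (i, j) ∝ j⁻²` on the stair, `0` off the stair -/
noncomputable def w (x : ℕ × ℕ) : ℝ :=
  if 1 ≤ x.2 ∧ (x.1 = x.2 ∨ x.1 = x.2 + 1) then 1 / (x.2 : ℝ) ^ 2 else 0

/-- the acceptance probability of a move from `x` to `y` -/
noncomputable def acc (x y : ℕ × ℕ) : ℝ := w y / (w y + w x)

/-- the forward neighbour -/
def fwd (x : ℕ × ℕ) : ℕ × ℕ := if x.1 = x.2 then (x.1 + 1, x.2) else (x.1, x.2 + 1)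

/-- the backward neighbour -/
def bwd (x : ℕ × ℕ) : ℕ × ℕ := if x.1 = x.2 then (x.1, x.2 - 1) else (x.1 - 1, x.2)

/-- the probability of proposing the forward neighbour; `s` is the sign of the drift at `(j+1, j)` -/
noncomputable def pf (s a : ℝ) (x : ℕ × ℕ) : ℝ :=
  if x.1 = x.2 then 1 / 2 + 4 / a else 1 / 2 + s * (4 / a)

/-- the transition probability from `x` to `y` with parameter `a` -/
noncomputable def K (s a : ℝ) (x y : ℕ × ℕ) : ℝ :=
  (if y = fwd x then pf s a x * acc x (fwd x) else 0) +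
  (if y = bwd x then (1 - pf s a x) * acc x (bwd x) else 0) +
  (if y = x then 1 - pf s a x * acc x (fwd x) - (1 - pf s a x) * acc x (bwd x) else 0)

/-- admissible parameter sequences -/
def Adm (a : ℕ → ℝ) : Prop := Monotone a ∧ (∀ t, 8 ≤ a t) ∧ Tendsto a atTop atTop

/-- `X` starts at `(1, 1)` and its step `t + 1` has transition probabilities `K s (a (t + 1))` -/
def Walk (s : ℝ) (a : ℕ → ℝ) {Ω : Type} [MeasurableSpace Ω] (P : Measure Ω)
    (X : ℕ → Ω → ℕ × ℕ) : Prop :=
  (∀ t, Measurable (X t)) ∧ (∀ ω, X 0 ω = (1, 1)) ∧ ∀ t x y,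
    P.real {ω | X t ω = x ∧ X (t + 1) ω = y} = P.real {ω | X t ω = x} * K s (a (t + 1)) x y

open Pool.Agent.H12.Stair in
theorem result :
    (∃ a, Adm a ∧ ∀ (Ω : Type) [MeasurableSpace Ω] (P : Measure Ω) [IsProbabilityMeasure P]
      (X : ℕ → Ω → ℕ × ℕ), Walk 1 a P X →
        P {ω | Tendsto (fun t => (X t ω).2) atTop atTop} = 1) ∧
    ∀ a, Adm a → ∀ (Ω : Type) [MeasurableSpace Ω] (P : Measure Ω) [IsProbabilityMeasure P]
      (X : ℕ → Ω → ℕ × ℕ), Walk (-1) a P X →
        P {ω | Tendsto (fun t => (X t ω).2) atTop atTop} = 0 := by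
  have w0 : ∀ x, 0 ≤ w x := fun x => by unfold w; split_ifs <;> positivity
  have a0 : ∀ x y, 0 ≤ acc x y := fun x y => div_nonneg (w0 _) (add_nonneg (w0 _) (w0 _))
  have a1 : ∀ x y, acc x y ≤ 1 := fun x y =>
    div_le_one_of_le₀ (by linarith [w0 x]) (add_nonneg (w0 _) (w0 _))
  have p01 : ∀ s a x, (s = 1 ∨ s = -1) → 8 ≤ a → 0 ≤ pf s a x ∧ pf s a x ≤ 1 := by
    intro s a x hs ha
    have h1 : 4 / a ≤ 1 / 2 := by rw [div_le_div_iff₀ (by linarith) (by norm_num)]; linarith
    have h2 : 0 ≤ 4 / a := by positivity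
    unfold pf
    rcases hs with rfl | rfl <;> split_ifs <;> constructor <;> linarith
  have c0 : ∀ s a x, (s = 1 ∨ s = -1) → 8 ≤ a → 0 ≤ pf s a x * acc x (fwd x) ∧
      0 ≤ (1 - pf s a x) * acc x (bwd x) ∧
      0 ≤ 1 - pf s a x * acc x (fwd x) - (1 - pf s a x) * acc x (bwd x) := by
    intro s a x hs ha
    obtain ⟨h1, h2⟩ := p01 s a x hs ha
    have := a0 x (fwd x); have := a0 x (bwd x); have := a1 x (fwd x); have := a1 x (bwd x)
    refine ⟨by positivity, mul_nonneg (by linarith) (a0 _ _), by nlinarith⟩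
  have hS : ∀ s a (f : ℕ × ℕ → ℝ) x, HasSum (fun y => K s a x y * f y)
      (pf s a x * acc x (fwd x) * f (fwd x) + (1 - pf s a x) * acc x (bwd x) * f (bwd x) +
        (1 - pf s a x * acc x (fwd x) - (1 - pf s a x) * acc x (bwd x)) * f x) := by
    intro s a f x
    have := ((hasSum_ite_eq (fwd x) (pf s a x * acc x (fwd x) * f (fwd x))).add
      (hasSum_ite_eq (bwd x) ((1 - pf s a x) * acc x (bwd x) * f (bwd x)))).add (hasSum_ite_eq x
        ((1 - pf s a x * acc x (fwd x) - (1 - pf s a x) * acc x (bwd x)) * f x))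
    convert this using 2 with y
    simp only [K, add_mul, ite_mul, zero_mul]
    congr 1
    · congr 1 <;> split_ifs with h <;> simp only [h]
    · split_ifs with h <;> simp only [h]
  refine ⟨?_, fun a ha Ω _ P _ X ⟨hX, h0, hK⟩ => ?_⟩
  · have hl := fun n : ℕ => lyap (4 / (9 + n)) (by positivity)
      (by rw [div_lt_div_iff₀ (by positivity) (by norm_num)]; linarith [Nat.cast_nonneg (α := ℝ) n])
    choose V T G hL hI using hl
    obtain ⟨idx, im, it, hf⟩ := final V T G hL
    have h8 : ∀ n : ℕ, (8 : ℝ) ≤ 9 + n := fun n => by linarith [Nat.cast_nonneg (α := ℝ) n]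
    refine ⟨fun t => 9 + idx (t - 1), ⟨fun s t e => ?_, fun t => h8 _, ?_⟩,
      fun Ω _ P _ X ⟨hX, h0, hK⟩ => ?_⟩
    · have : (idx (s - 1) : ℝ) ≤ idx (t - 1) := by exact_mod_cast im (by omega)
      simp only; linarith
    · exact tendsto_atTop_add_const_left _ _
        (tendsto_natCast_atTop_atTop.comp (it.comp (tendsto_sub_atTop_nat 1)))
    simp only [Nat.add_sub_cancel] at hK
    have tr : ∀ t (f : ℕ × ℕ → ℝ) B, (∀ x, |f x| ≤ B) → ∀ (g : ℕ × ℕ → ℝ) B', (∀ x, |g x| ≤ B') →
        (∀ᵐ ω ∂P, w (X t ω) ≠ 0) → (∀ x, w x ≠ 0 →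
          pf 1 (9 + idx t) x * acc x (fwd x) * (f (fwd x) - f x) +
          (1 - pf 1 (9 + idx t) x) * acc x (bwd x) * (f (bwd x) - f x) + f x ≤ g x) →
        ∫ ω, f (X (t + 1) ω) ∂P ≤ ∫ ω, g (X t ω) ∂P := by
      intro t f B hB g B' hg hw hle
      have bd : ∀ x, |pf 1 (9 + idx t) x * acc x (fwd x) * f (fwd x) +
          (1 - pf 1 (9 + idx t) x) * acc x (bwd x) * f (bwd x) +
          (1 - pf 1 (9 + idx t) x * acc x (fwd x) - (1 - pf 1 (9 + idx t) x) * acc x (bwd x)) * f x|
          ≤ B := fun x => by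
        obtain ⟨h1, h2, h3⟩ := c0 1 _ x (.inl rfl) (h8 (idx t))
        have := abs_le.1 (hB x); have := abs_le.1 (hB (fwd x)); have := abs_le.1 (hB (bwd x))
        rw [abs_le]
        constructor <;> nlinarith
      rw [trans (hX t) (hX (t + 1)) _ (hK t) f _ B B hB bd (hS 1 _ f)]
      refine integral_mono_ae (intg (hX t) _ B bd) (intg (hX t) g B' hg) ?_
      filter_upwards [hw] with ω hω
      linarith [hle _ hω]
    have wf : ∀ x, w x ≠ 0 → ∃ j, 1 ≤ j ∧ (x = (j, j) ∨ x = (j + 1, j)) := fun x h => by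
      unfold w at h
      split_ifs at h with h1
      · exact ⟨x.2, h1.1, h1.2.imp (fun e => Prod.ext e rfl) fun e => Prod.ext e rfl⟩
      · exact absurd rfl h
    have w1 : ∀ j, 1 ≤ j → w (j, j) = 1 / (j : ℝ) ^ 2 := fun j h => by simp [w, h]
    have w2 : ∀ j, 1 ≤ j → w (j + 1, j) = 1 / (j : ℝ) ^ 2 := fun j h => by simp [w, h]
    have on : ∀ t, ∀ᵐ ω ∂P, w (X t ω) ≠ 0 := by
      intro t
      induction t with
      | zero => exact Eventually.of_forall fun ω => by rw [h0, w1 1 le_rfl]; norm_num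
      | succ t ih =>
        have bd : ∀ x, |(if w x = 0 then 1 else 0 : ℝ)| ≤ 1 := fun x => by split_ifs <;> simp
        have h1 := tr t (fun x => if w x = 0 then 1 else 0) 1 bd (fun _ => 0) 0 (by simp) ih ?_
        · have nn : ∀ ω, (0 : ℝ) ≤ if w (X (t + 1) ω) = 0 then 1 else 0 := fun ω => by
            split_ifs <;> norm_num
          have h2 := (integral_eq_zero_iff_of_nonneg nn (intg (hX _) _ 1 bd)).1
            (le_antisymm (by simpa using h1) (integral_nonneg nn))
          filter_upwards [h2] with ω hω h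
          simp [h] at hω
        · intro x hx
          have : ∀ y, acc x y * ((if w y = 0 then 1 else 0) - 0) = 0 := fun y => by
            split_ifs with h <;> simp [acc, h]
          simp only [hx, if_false, mul_assoc, this]
          simp
    have := hf Ω P X hX fun t => by
      rw [← integral_sub (intg (hX t) _ _ (hL _).bV)
        (intg (hX t) (fun x => G (idx t) x.2) _ fun x => (hL _).bG x.2)]
      refine tr t _ _ (hL _).bV (fun x => V (idx t) x - G (idx t) x.2) (T (idx t) 0 + G (idx t) 0)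
        (fun x => (abs_sub _ _).trans (add_le_add ((hL _).bV x) ((hL _).bG x.2))) (on t) fun x hx => ?_
      obtain ⟨j, hj, rfl | rfl⟩ := wf x hx
      · have j0 : (0 : ℝ) < j := by exact_mod_cast hj
        have e1 : acc (j, j) (j + 1, j) = 1 / 2 := by
          rw [acc, w1 j hj, w2 j hj]; field_simp; norm_num
        have e2 : acc (j, j) (j, j - 1) = (j : ℝ) ^ 2 / ((j : ℝ) ^ 2 + ((j : ℝ) - 1) ^ 2) *
            (if j = 1 then 0 else 1) := by
          split_ifs with h
          · subst h; simp [acc, w]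
          · obtain ⟨k, rfl⟩ : ∃ k, j = k + 1 := ⟨j - 1, by omega⟩
            have k0 : (0 : ℝ) < k := by exact_mod_cast (show 0 < k by omega)
            rw [acc, Nat.add_sub_cancel, w1 _ hj, w2 k (by omega)]
            push_cast; field_simp; ring
        have := (hI (idx t) j hj).1
        simp only [fwd, bwd, pf, if_true, e1, e2]
        linarith
      · have j0 : (0 : ℝ) < j := by exact_mod_cast hj
        have e1 : acc (j + 1, j) (j, j) = 1 / 2 := by
          rw [acc, w1 j hj, w2 j hj]; field_simp; norm_num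
        have e2 : acc (j + 1, j) (j + 1, j + 1) = (j : ℝ) ^ 2 / ((j : ℝ) ^ 2 + ((j : ℝ) + 1) ^ 2) := by
          rw [acc, w1 _ (by omega), w2 j hj]
          push_cast; field_simp
        have := (hI (idx t) j hj).2
        simp only [fwd, bwd, pf, Nat.add_eq_left, one_ne_zero, if_false, Nat.add_sub_cancel, e1, e2]
        linarith
    refine le_antisymm prob_le_one ?_
    rw [← measure_univ (μ := P)]
    exact measure_mono_ae (this.mono fun ω h _ => h)
  · have K0 : ∀ t x y, 0 ≤ K (-1) (a t) x y := fun t x y => by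
      obtain ⟨h1, h2, h3⟩ := c0 (-1) _ x (.inr rfl) (ha.2.1 t)
      unfold K
      split_ifs <;> linarith
    have K1 : ∀ b x, HasSum (K (-1) b x) 1 := fun b x => by
      convert hS (-1) b (fun _ => 1) x using 1
      · simp
      · ring
    have db : ∀ b x y, w x * K (-1) b x y = w y * K (-1) b y x := by
      intro b x y
      by_cases e : x = y
      · rw [e]
      have q : ∀ x y, x ≠ y → w x * K (-1) b x y = w x * w y / (w x + w y) *
          ((if y = fwd x then pf (-1) b x else 0) + if y = bwd x then 1 - pf (-1) b x else 0) := by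
        intro x y e
        rw [K, if_neg e.symm, add_comm (w x)]
        split_ifs with h1 h2 h2
        · rw [← h1, ← h2, acc]; ring
        · rw [← h1, acc]; ring
        · rw [← h2, acc]; ring
        · simp
      rw [q x y e, q y x (Ne.symm e), mul_comm (w y), add_comm (w y)]
      by_cases hx : w x = 0
      · simp [hx]
      by_cases hy : w y = 0
      · simp [hy]
      congr 1
      have hx' : 1 ≤ x.2 ∧ (x.1 = x.2 ∨ x.1 = x.2 + 1) := by
        by_contra h; exact hx (if_neg h)
      have hy' : 1 ≤ y.2 ∧ (y.1 = y.2 ∨ y.1 = y.2 + 1) := by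
        by_contra h; exact hy (if_neg h)
      obtain ⟨i, j⟩ := x
      obtain ⟨k, l⟩ := y
      simp only [fwd, bwd, pf] at *
      split_ifs <;> simp only [Prod.mk.injEq] at * <;> first | omega | ring
    have u : ∀ t y, P {ω | X t ω = y} ≤ ENNReal.ofReal (w y) := by
      intro t
      induction t with
      | zero =>
        intro y
        by_cases e : (1, 1) = y
        · subst e; simpa [w] using prob_le_one
        · simp [h0, e]
      | succ t ih =>
        intro y
        have h1 : {ω | X (t + 1) ω = y} ⊆ ⋃ x, {ω | X t ω = x ∧ X (t + 1) ω = y} := fun ω h =>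
          Set.mem_iUnion.2 ⟨X t ω, rfl, h⟩
        refine ((measure_mono h1).trans (measure_iUnion_le _)).trans ?_
        have h2 := (K1 (a (t + 1)) y).mul_left (w y)
        rw [mul_one] at h2
        rw [← h2.tsum_eq, ENNReal.ofReal_tsum_of_nonneg
          (fun x => mul_nonneg (w0 _) (K0 _ _ _)) h2.summable]
        refine ENNReal.tsum_le_tsum fun x => ?_
        rw [← ofReal_measureReal (measure_ne_top P _), hK, db]
        exact ENNReal.ofReal_le_ofReal (mul_le_mul_of_nonneg_right
          (ENNReal.toReal_le_of_le_ofReal (w0 _) (ih x)) (K0 _ _ _))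
    have sw : Summable w := by
      have s0 : Summable fun j : ℕ => 1 / (j : ℝ) ^ 2 := Real.summable_one_div_nat_pow.2 one_lt_two
      have s1 : ∀ c : ℕ, Summable fun x : ℕ × ℕ => if x.1 = x.2 + c then 1 / (x.2 : ℝ) ^ 2 else 0 :=
        fun c => by
          refine (Function.Injective.summable_iff (g := fun j : ℕ => (j + c, j))
            (fun i j e => (Prod.ext_iff.1 e).2) fun x hx => if_neg fun e => hx ⟨x.2, ?_⟩).1 ?_
          · exact Prod.ext e.symm rfl
          · exact s0.congr fun j => by simp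
      refine Summable.of_nonneg_of_le w0 (fun x => ?_) ((s1 0).add (s1 1))
      unfold w
      split_ifs <;> first | omega | positivity | simp
    have sw' : ∑' x, ENNReal.ofReal (w x) ≠ ⊤ := by
      rw [← ENNReal.ofReal_tsum_of_nonneg w0 sw]; exact ENNReal.ofReal_ne_top
    refine le_antisymm (ge_of_tendsto' (ENNReal.tendsto_tsum_compl_atTop_zero sw') fun F => ?_)
      (zero_le)
    have h1 : {ω | Tendsto (fun t => (X t ω).2) atTop atTop} ⊆ ⋃ n, {ω | ∀ t ≥ n, X t ω ∉ F} := by
      intro ω h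
      obtain ⟨n, hn⟩ := tendsto_atTop_atTop.1 h (F.sup Prod.snd + 1)
      refine Set.mem_iUnion.2 ⟨n, fun t ht hF => ?_⟩
      have := Finset.le_sup (f := Prod.snd) hF
      have := hn t ht
      omega
    refine (measure_mono h1).trans ?_
    rw [Monotone.measure_iUnion (s := fun n => {ω | ∀ t ≥ n, X t ω ∉ F})
      fun m n e ω h t ht => h t (e.trans ht)]
    refine iSup_le fun n => ?_
    have h2 : {ω | ∀ t ≥ n, X t ω ∉ F} ⊆ ⋃ x : {x // x ∉ F}, {ω | X n ω = x} := fun ω h =>
      Set.mem_iUnion.2 ⟨⟨X n ω, h n le_rfl⟩, rfl⟩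
    exact ((measure_mono h2).trans (measure_iUnion_le _)).trans (ENNReal.tsum_le_tsum fun x => u n x)

end Pool.Agent.Results.MP_1da119_pr.Diverge
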